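import Mathlib
import Pool.Agent.N730.FT.Main

/-!
# Every forcing preserves the winning strategies of II in the strong countable fan tightness game

Sentences of the forcing language of a preordered set `P` are the sets of the conditions which force
them, names for subsets of a ground model set `X` are the maps `X → Set P`
(`Pool/Agent/Helper669/Forcing.lean`, a starting file; the games in the ground model and in the extension
are defined in `Pool/Agent/N730/FT/Game.lean`).  If II has a winning strategy in the strong countable fan
tightness game at a point `x` of a space `X`, then every condition of every forcing notion `P` forces that
II has one at `x` in the space `X` whose topology has the ground model topology as a base.  No
hypothesis on `P` is used, in particular not that `P` is strongly proper.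

Proof.  (1) If the sets `A_0, …, A_{n-1}` have been played then there is a neighbourhood of `x` all
points of which are answers of II to some legal move: otherwise the set of the points which are not
answers is a legal move.  So there is a rule which attaches to every finite sequence of points an open
neighbourhood of `x`, such that `x` is in the closure of every sequence of points which obeys the rule.
(2) In the extension II answers with the least point (for a well-order of the ground model) of `A_n` in the
neighbourhood given by the rule.  If a neighbourhood `O` of `x` were missed by all the answers, then the
tree of the finite sequences of points outside `O` obeying the rule would have a branch in the extension
and hence, by absoluteness of wellfoundedness, one in the ground model.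
-/

set_option autoImplicit false

namespace Pool.Agent.Results.MP_07c8c2_lc.FanGamePreserved

open Pool.Agent.Helper669.Forcing
open Pool.Agent.N730.FT

universe u v

/-- Let `P` be a preordered set and let `X` be a topological space.  If II has a winning strategy in the
strong countable fan tightness game at a point `x`, then every condition forces that II has a winning
strategy at `x` in the extension.  If II has a winning strategy at every point, then every condition
forces that II has a winning strategy at every point. -/
theorem result (P : Type u) [Preorder P] (X : Type v) [TopologicalSpace X] :
    (∀ x : X, IIWins x → ∀ p : P, p ∈ fIIWins P x) ∧
    ((∀ x : X, IIWins x) → ∀ p : P, p ∈ fall fun x : X => fIIWins P x) :=
  ⟨fun _ h p => preserved P h p, fun h p x => preserved P (h x) p⟩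

end Pool.Agent.Results.MP_07c8c2_lc.FanGamePreserved
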